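import Pool.Agent.H382R3.KD.Fin2

set_option autoImplicit false

namespace Pool.Agent.Results.MP_23b0f8_an.KestenNotNecessary

open Pool.Agent.H382R3.KD

/-- There are `D ∈ (0,1)` and `γ` with `1, γ, D` linearly independent over the rationals (so `γ` and
`D` are irrational and the Kesten condition fails) such that for every `x₀` the projected staircase
satisfies the diffraction condition. -/
theorem result : ∃ D γ : ℝ, 0 < D ∧ D < 1 ∧ Irrational γ ∧ (∀ r s : ℚ, D ≠ r * γ + s) ∧
    ¬ Kesten D γ ∧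
    ∀ x₀ : ℝ, (∃! p : ℤ → ℤ × ℤ, IsStaircase D γ x₀ p) ∧
      ∀ p : ℤ → ℤ × ℤ, IsStaircase D γ x₀ p → DiffractionCondition (proj D '' Set.range p) :=
  ⟨DD, gam, by linarith [DD_lo], DD_hi, gam_irr, indep, not_kesten,
    fun x₀ => ⟨stair_unique DD gam x₀, fun _ hp => counterexample x₀ hp⟩⟩

end Pool.Agent.Results.MP_23b0f8_an.KestenNotNecessary
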