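import Pool.Agent.H382R3.KD.Fin1

set_option autoImplicit false

namespace Pool.Agent.Results.MP_23b0f8_an.KestenSufficient

open Pool.Agent.H382R3.KD

/-- For all `D ∈ (0,1)`, irrational `γ` and `x₀` there is exactly one staircase, and if the Kesten
condition `D ∈ ℤγ + ℤ` holds then the projected set satisfies the diffraction condition. -/
theorem result : ∀ D γ x₀ : ℝ, 0 < D → D < 1 → Irrational γ →
    (∃! p : ℤ → ℤ × ℤ, IsStaircase D γ x₀ p) ∧
      (Kesten D γ → ∀ p : ℤ → ℤ × ℤ, IsStaircase D γ x₀ p →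
        DiffractionCondition (proj D '' Set.range p)) :=
  fun D γ x₀ h0 h1 hγ => ⟨stair_unique D γ x₀, fun hK _ hp => sufficiency h0 h1 hγ hK hp⟩

end Pool.Agent.Results.MP_23b0f8_an.KestenSufficient
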